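import Mathlib

/-!
# Carnot groups, Carnot metrics, Heisenberg groups

Definitions used for problem MP_b4a25c_gt.
-/

open scoped Manifold ContDiff
open Set MeasureTheory

noncomputable section

namespace Pool.Agent.Results.MP_b4a25c_gt.DualHeisenberg

/-! ## General definitions: Carnot groups and Carnot metrics -/

/-- `F` is biLipschitz for the distance `d`: there is a finite constant `L` such that
`d (F p) (F q) ≤ L d p q` and `d p q ≤ L d (F p) (F q)` for all `p`, `q`. -/
def IsBiLipschitz {N : Type} (d : N → N → ENNReal) (F : N → N) : Prop :=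
  ∃ L : NNReal, ∀ p q : N, d (F p) (F q) ≤ L * d p q ∧ d p q ≤ L * d (F p) (F q)

/-- The left coset `g H`. -/
def leftCoset {N : Type} [Group N] (g : N) (H : Subgroup N) : Set N := {x | ∃ k ∈ H, x = g * k}

/-- `F` permutes the left cosets of `H`: for every `g` there is `h` with `F (g H) = h H`. -/
def PermutesLeftCosets {N : Type} [Group N] (F : N → N) (H : Subgroup N) : Prop :=
  ∀ g : N, ∃ h : N, F '' leftCoset g H = leftCoset h H

section General

variable {E : Type} [NormedAddCommGroup E] [NormedSpace ℝ E]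
  {N : Type} [TopologicalSpace N] [ChartedSpace E N] [Group N]

/-- For linear subspaces `A`, `B` of the Lie algebra of `N`, the subspace `[A, B]` spanned by all
brackets `[a, b]` with `a ∈ A` and `b ∈ B`.  (`GroupLieAlgebra` is Mathlib's Lie algebra of a Lie
group: the tangent space at the identity, with the bracket of left-invariant vector fields.) -/
def bracketSpan (A B : Submodule ℝ (GroupLieAlgebra 𝓘(ℝ, E) N)) :
    Submodule ℝ (GroupLieAlgebra 𝓘(ℝ, E) N) :=
  Submodule.span ℝ {w | ∃ a ∈ A, ∃ b ∈ B, ⁅a, b⁆ = w}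

/-- `N` is a connected, simply connected real Lie group (smooth, finite-dimensional, Hausdorff,
second countable) and `V 1, …, V r` is a stratification of its Lie algebra: the Lie algebra is
the direct sum `V 1 ⊕ ⋯ ⊕ V r`, `[V 1, V j] = V (j + 1)` for `1 ≤ j < r`, `[V 1, V r] = 0` and
`V r ≠ 0`.  (The values of `V` outside `1, …, r` play no role.)  So `N` is a Carnot group. -/
structure IsCarnotGroup (r : ℕ) (V : ℕ → Submodule ℝ (GroupLieAlgebra 𝓘(ℝ, E) N)) : Prop where
  finiteDimensional : FiniteDimensional ℝ E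
  lieGroup : LieGroup 𝓘(ℝ, E) ∞ N
  t2Space : T2Space N
  secondCountable : SecondCountableTopology N
  simplyConnected : SimplyConnectedSpace N
  one_le : 1 ≤ r
  independent : iSupIndep (fun j : Fin r => V ((j : ℕ) + 1))
  spans : (⨆ j : Fin r, V ((j : ℕ) + 1)) = ⊤
  bracket_eq : ∀ j : ℕ, 1 ≤ j → j < r → bracketSpan (V 1) (V j) = V (j + 1)
  bracket_top : bracketSpan (V 1) (V r) = ⊥
  top_ne_bot : V r ≠ ⊥

/-- `c : [0, 1] → N` is a horizontal curve with left-trivialised velocity `u`: the curve `c` is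
absolutely continuous (it is continuous and `φ ∘ c` is absolutely continuous on `[0, 1]` for every
smooth function `φ : N → ℝ`) and for almost every `t ∈ (0, 1)` it is differentiable at `t` with
derivative the value at `c t` of the left-invariant vector field determined by `u t ∈ V₁`. -/
structure IsHorizontalCurve (V₁ : Submodule ℝ (GroupLieAlgebra 𝓘(ℝ, E) N))
    (c : ℝ → N) (u : ℝ → V₁) : Prop where
  continuousOn : ContinuousOn c (Icc 0 1)
  absolutelyContinuous : ∀ φ : N → ℝ, ContMDiff 𝓘(ℝ, E) 𝓘(ℝ, ℝ) ∞ φ →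
    AbsolutelyContinuousOnInterval (φ ∘ c) 0 1
  velocity : ∀ᵐ t : ℝ, t ∈ Ioo (0 : ℝ) 1 →
    HasMFDerivAt 𝓘(ℝ, ℝ) 𝓘(ℝ, E) c t
      (ContinuousLinearMap.toSpanSingleton ℝ
        (mulInvariantVectorField (I := 𝓘(ℝ, E)) (u t : GroupLieAlgebra 𝓘(ℝ, E) N) (c t)))

/-- The Carnot distance determined by a norm `ν` on `V₁`: the infimum of the lengths
`∫₀¹ ν (u t) dt` of the horizontal curves `c` from `p` to `q`, where `u` is the left-trivialised
velocity of `c` (that is, `ν` is extended left-invariantly to the horizontal distribution). -/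
def carnotEDist (V₁ : Submodule ℝ (GroupLieAlgebra 𝓘(ℝ, E) N)) (ν : Seminorm ℝ V₁)
    (p q : N) : ENNReal :=
  ⨅ (c : ℝ → N) (u : ℝ → V₁) (_ : IsHorizontalCurve V₁ c u) (_ : c 0 = p) (_ : c 1 = q),
    ∫⁻ t in Icc (0 : ℝ) 1, ENNReal.ofReal (ν (u t))

/-- For every norm `ν` on the first layer `V₁`, the Carnot distance determined by `ν` is finite and
separates points, and `F` is biLipschitz for it. -/
def IsBiLipschitzForCarnotMetrics (V₁ : Submodule ℝ (GroupLieAlgebra 𝓘(ℝ, E) N))
    (F : N → N) : Prop :=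
  ∀ ν : Seminorm ℝ V₁, (∀ v, ν v = 0 → v = 0) →
    (∀ p q : N, carnotEDist V₁ ν p q ≠ ⊤) ∧
    (∀ p q : N, carnotEDist V₁ ν p q = 0 ↔ p = q) ∧
    IsBiLipschitz (carnotEDist V₁ ν) F

end General

/-! ## Heisenberg groups -/

/-- The Heisenberg group `ℍ^{2n+1}`: the space `ℝⁿ × ℝⁿ × ℝ` with the group law
`(x, y, z) (x', y', z') = (x + x', y + y', z + z' + ∑ i, xᵢ y'ᵢ)`. -/
@[ext] structure Heis (n : ℕ) : Type where
  x : Fin n → ℝ
  y : Fin n → ℝ
  z : ℝ

namespace Heis

variable {n : ℕ}

instance : Mul (Heis n) where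
  mul a b := ⟨a.x + b.x, a.y + b.y, a.z + b.z + ∑ i, a.x i * b.y i⟩

instance : One (Heis n) where
  one := ⟨0, 0, 0⟩

instance : Inv (Heis n) where
  inv a := ⟨-a.x, -a.y, -a.z + ∑ i, a.x i * a.y i⟩

@[simp] lemma mul_x (a b : Heis n) : (a * b).x = a.x + b.x := rfl
@[simp] lemma mul_y (a b : Heis n) : (a * b).y = a.y + b.y := rfl
@[simp] lemma mul_z (a b : Heis n) : (a * b).z = a.z + b.z + ∑ i, a.x i * b.y i := rfl
@[simp] lemma one_x : (1 : Heis n).x = 0 := rfl
@[simp] lemma one_y : (1 : Heis n).y = 0 := rfl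
@[simp] lemma one_z : (1 : Heis n).z = 0 := rfl
@[simp] lemma inv_x (a : Heis n) : (a⁻¹).x = -a.x := rfl
@[simp] lemma inv_y (a : Heis n) : (a⁻¹).y = -a.y := rfl
@[simp] lemma inv_z (a : Heis n) : (a⁻¹).z = -a.z + ∑ i, a.x i * a.y i := rfl

instance : Group (Heis n) where
  mul_assoc a b c := by
    ext
    · simp [add_assoc]
    · simp [add_assoc]
    · simp only [mul_z, mul_x, mul_y, Pi.add_apply, add_mul, mul_add, Finset.sum_add_distrib]
      ring
  one_mul a := by ext <;> simp
  mul_one a := by ext <;> simp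
  inv_mul_cancel a := by
    ext
    · simp
    · simp
    · simp

end Heis

/-- `N` has a Heisenberg factor, in the weakest possible sense: for some `n ≥ 1` and some group `N'`
there is an isomorphism of abstract groups between `N` and `ℍ^{2n+1} × N'`.  (So a Lie group without
Heisenberg factor in this sense is in particular not isomorphic, as a Lie group, to
`ℍ^{2n+1} × N'` with `n ≥ 1` and `N'` a Carnot group or the trivial group.) -/
def HasHeisenbergFactor (N : Type) [Group N] : Prop :=
  ∃ n : ℕ, 1 ≤ n ∧ ∃ (N' : Type) (_ : Group N'), Nonempty (N ≃* Heis n × N')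

end Pool.Agent.Results.MP_b4a25c_gt.DualHeisenberg
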