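import Pool.Agent.H50.MPb4a25c.Defs

/-!
# Proofs for problem MP_b4a25c_gt

For `f (x, z) = sin z / (1 + x²)` the vector field `(Y f) X' - (X f) Y' + f Z'` on the Heisenberg
group over the dual numbers is a contact vector field whose horizontal coefficients have bounded
horizontal derivatives.  Its time-one flow is biLipschitz for every Carnot metric.  It moves the
points of a left coset of `[N, N]` horizontally by amounts depending on the point of the coset.
-/

open scoped Manifold ContDiff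
open Set MeasureTheory

noncomputable section

namespace Pool.Agent.Results.MP_b4a25c_gt.DualHeisenberg

section General

variable {E : Type} [NormedAddCommGroup E] [NormedSpace ℝ E]
  {N : Type} [TopologicalSpace N] [ChartedSpace E N] [Group N]

lemma carnotEDist_le {V₁ : Submodule ℝ (GroupLieAlgebra 𝓘(ℝ, E) N)} (ν : Seminorm ℝ V₁)
    {p q : N} {c : ℝ → N} {u : ℝ → V₁} (h : IsHorizontalCurve V₁ c u) (hp : c 0 = p)
    (hq : c 1 = q) :
    carnotEDist V₁ ν p q ≤ ∫⁻ t in Icc (0 : ℝ) 1, ENNReal.ofReal (ν (u t)) :=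
  iInf_le_of_le c <| iInf_le_of_le u <| iInf_le_of_le h <| iInf_le_of_le hp <|
    iInf_le_of_le hq le_rfl

end General

/-! ## The Heisenberg group over the dual numbers -/

/-- The vector space `ℝ⁴ × ℝ²`, on which the group `DH` is modelled. -/
abbrev E6 : Type := (ℝ × ℝ × ℝ × ℝ) × (ℝ × ℝ)

/-- The Heisenberg group over the dual numbers `ℝ[ε]/(ε²)`: the manifold `ℝ⁴ × ℝ²`, with
coordinates `((x, y, x', y'), (z, z'))` and with the group law defined below, in which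
`x, y, x', y'` are additive and
`z (g h) = z g + z h + x g * y h`, `z' (g h) = z' g + z' h + x g * y' h + x' g * y h`.
(It is the group of upper unitriangular `3 × 3` matrices with entries `x + x' ε`, `y + y' ε`,
`z + z' ε`.) -/
def DH : Type := E6

namespace DH

instance : TopologicalSpace DH := inferInstanceAs (TopologicalSpace E6)
instance : ChartedSpace E6 DH := inferInstanceAs (ChartedSpace E6 E6)

/-- The element with coordinates `x, y, x', y', z, z'`. -/
def mk (x y x' y' z z' : ℝ) : DH := ((x, y, x', y'), (z, z'))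

/-- The coordinate `x`. -/
def x (g : DH) : ℝ := g.1.1
/-- The coordinate `y`. -/
def y (g : DH) : ℝ := g.1.2.1
/-- The coordinate `x'`. -/
def x' (g : DH) : ℝ := g.1.2.2.1
/-- The coordinate `y'`. -/
def y' (g : DH) : ℝ := g.1.2.2.2
/-- The coordinate `z`. -/
def z (g : DH) : ℝ := g.2.1
/-- The coordinate `z'`. -/
def z' (g : DH) : ℝ := g.2.2

@[ext] lemma ext {g h : DH} (hx : g.x = h.x) (hy : g.y = h.y) (hx' : g.x' = h.x')
    (hy' : g.y' = h.y') (hz : g.z = h.z) (hz' : g.z' = h.z') : g = h := by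
  obtain ⟨⟨a, b, c, d⟩, ⟨e, f⟩⟩ := g
  obtain ⟨⟨a', b', c', d'⟩, ⟨e', f'⟩⟩ := h
  simp only [x, y, x', y', z, z'] at hx hy hx' hy' hz hz'
  subst hx hy hx' hy' hz hz'
  rfl

instance : Mul DH where
  mul g h := mk (g.x + h.x) (g.y + h.y) (g.x' + h.x') (g.y' + h.y')
    (g.z + h.z + g.x * h.y) (g.z' + h.z' + g.x * h.y' + g.x' * h.y)

instance : One DH where
  one := mk 0 0 0 0 0 0

instance : Inv DH where
  inv g := mk (-g.x) (-g.y) (-g.x') (-g.y') (-g.z + g.x * g.y) (-g.z' + g.x * g.y' + g.x' * g.y)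

@[simp] lemma mk_x (a b c d e f : ℝ) : (mk a b c d e f).x = a := rfl
@[simp] lemma mk_y (a b c d e f : ℝ) : (mk a b c d e f).y = b := rfl
@[simp] lemma mk_x' (a b c d e f : ℝ) : (mk a b c d e f).x' = c := rfl
@[simp] lemma mk_y' (a b c d e f : ℝ) : (mk a b c d e f).y' = d := rfl
@[simp] lemma mk_z (a b c d e f : ℝ) : (mk a b c d e f).z = e := rfl
@[simp] lemma mk_z' (a b c d e f : ℝ) : (mk a b c d e f).z' = f := rfl
@[simp] lemma mul_x (g h : DH) : (g * h).x = g.x + h.x := rfl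
@[simp] lemma mul_y (g h : DH) : (g * h).y = g.y + h.y := rfl
@[simp] lemma mul_x' (g h : DH) : (g * h).x' = g.x' + h.x' := rfl
@[simp] lemma mul_y' (g h : DH) : (g * h).y' = g.y' + h.y' := rfl
@[simp] lemma mul_z (g h : DH) : (g * h).z = g.z + h.z + g.x * h.y := rfl
@[simp] lemma mul_z' (g h : DH) : (g * h).z' = g.z' + h.z' + g.x * h.y' + g.x' * h.y := rfl
@[simp] lemma one_x : (1 : DH).x = 0 := rfl
@[simp] lemma one_y : (1 : DH).y = 0 := rfl
@[simp] lemma one_x' : (1 : DH).x' = 0 := rfl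
@[simp] lemma one_y' : (1 : DH).y' = 0 := rfl
@[simp] lemma one_z : (1 : DH).z = 0 := rfl
@[simp] lemma one_z' : (1 : DH).z' = 0 := rfl
@[simp] lemma inv_x (g : DH) : (g⁻¹).x = -g.x := rfl
@[simp] lemma inv_y (g : DH) : (g⁻¹).y = -g.y := rfl
@[simp] lemma inv_x' (g : DH) : (g⁻¹).x' = -g.x' := rfl
@[simp] lemma inv_y' (g : DH) : (g⁻¹).y' = -g.y' := rfl
@[simp] lemma inv_z (g : DH) : (g⁻¹).z = -g.z + g.x * g.y := rfl
@[simp] lemma inv_z' (g : DH) : (g⁻¹).z' = -g.z' + g.x * g.y' + g.x' * g.y := rfl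

instance : Group DH where
  mul_assoc a b c := by ext <;> simp <;> ring
  one_mul a := by ext <;> simp
  mul_one a := by ext <;> simp
  inv_mul_cancel a := by
    ext <;> simp <;> ring

/-- The first layer of the Lie algebra of `DH`: the tangent vectors at the identity whose
`(z, z')` coordinates vanish; it is spanned by the coordinate vectors `X, Y, X', Y'`. -/
def layer1 : Submodule ℝ (GroupLieAlgebra 𝓘(ℝ, E6) DH) :=
  LinearMap.ker (LinearMap.snd ℝ (ℝ × ℝ × ℝ × ℝ) (ℝ × ℝ))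

/-- The second layer of the Lie algebra of `DH`: the tangent vectors at the identity whose
`(x, y, x', y')` coordinates vanish; it is spanned by the coordinate vectors `Z, Z'`. -/
def layer2 : Submodule ℝ (GroupLieAlgebra 𝓘(ℝ, E6) DH) :=
  LinearMap.ker (LinearMap.fst ℝ (ℝ × ℝ × ℝ × ℝ) (ℝ × ℝ))

/-- The stratification `V 1 = layer1`, `V 2 = layer2` (and `V j = 0` otherwise). -/
def layer : ℕ → Submodule ℝ (GroupLieAlgebra 𝓘(ℝ, E6) DH)
  | 1 => layer1
  | 2 => layer2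
  | _ => ⊥

end DH

namespace Heis

variable {n : ℕ}

lemma comm_x (a b : Heis n) : (a * b * a⁻¹ * b⁻¹).x = 0 := by
  simp

lemma comm_y (a b : Heis n) : (a * b * a⁻¹ * b⁻¹).y = 0 := by
  simp

lemma comm_z (a b : Heis n) : (a * b * a⁻¹ * b⁻¹).z =
    (∑ i, a.x i * b.y i) - ∑ i, b.x i * a.y i := by
  simp only [mul_z, mul_x, inv_x, inv_y, inv_z, Pi.add_apply, Pi.neg_apply, add_mul, mul_neg,
    neg_mul, Finset.sum_add_distrib, Finset.sum_neg_distrib]
  ring

end Heis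

namespace DH

instance : T2Space DH := inferInstanceAs (T2Space E6)

instance : SecondCountableTopology DH := inferInstanceAs (SecondCountableTopology E6)

instance : IsManifold 𝓘(ℝ, E6) ∞ DH := inferInstanceAs (IsManifold 𝓘(ℝ, E6) ∞ E6)

instance : LieGroup 𝓘(ℝ, E6) ∞ DH where
  toIsManifold := inferInstance
  contMDiff_mul := by
    have h : ContDiff ℝ ∞ (fun p : E6 × E6 => (((p.1.1.1 + p.2.1.1, p.1.1.2.1 + p.2.1.2.1,
        p.1.1.2.2.1 + p.2.1.2.2.1, p.1.1.2.2.2 + p.2.1.2.2.2),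
        (p.1.2.1 + p.2.2.1 + p.1.1.1 * p.2.1.2.1,
          p.1.2.2 + p.2.2.2 + p.1.1.1 * p.2.1.2.2.2 + p.1.1.2.2.1 * p.2.1.2.1)) : E6)) := by
      fun_prop
    have h2 := h.contMDiff
    rw [modelWithCornersSelf_prod, ← chartedSpaceSelf_prod] at h2
    exact h2
  contMDiff_inv := by
    have h : ContDiff ℝ ∞ (fun p : E6 => (((- p.1.1, - p.1.2.1, - p.1.2.2.1, - p.1.2.2.2),
        (- p.2.1 + p.1.1 * p.1.2.1,
          - p.2.2 + p.1.1 * p.1.2.2.2 + p.1.2.2.1 * p.1.2.1)) : E6)) := by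
      fun_prop
    exact h.contMDiff

instance : SimplyConnectedSpace DH := by
  have : SimplyConnectedSpace E6 := inferInstance
  exact this


/-- explicit form of left-invariant field -/
def field (v : E6) (g : E6) : E6 :=
  ((v.1.1, v.1.2.1, v.1.2.2.1, v.1.2.2.2),
    (v.2.1 + g.1.1 * v.1.2.1, v.2.2 + g.1.1 * v.1.2.2.2 + g.1.2.2.1 * v.1.2.1))

lemma hasFDerivAt_mul_left (g h : E6) :
    ∃ L : E6 →L[ℝ] E6, (∀ v, L v = field v g) ∧
      HasFDerivAt (fun k : E6 => (((g.1.1 + k.1.1, g.1.2.1 + k.1.2.1,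
        g.1.2.2.1 + k.1.2.2.1, g.1.2.2.2 + k.1.2.2.2),
        (g.2.1 + k.2.1 + g.1.1 * k.1.2.1,
          g.2.2 + k.2.2 + g.1.1 * k.1.2.2.2 + g.1.2.2.1 * k.1.2.1)) : E6)) L h := by
  let Llin : E6 →ₗ[ℝ] E6 :=
    { toFun := fun v => field v g
      map_add' := by
        intro v w
        ext <;> simp [field] <;> ring
      map_smul' := by
        intro c v
        ext <;> simp [field] <;> ring }
  refine ⟨LinearMap.toContinuousLinearMap Llin, fun v => rfl, ?_⟩
  have h0 : (fun k : E6 => (((g.1.1 + k.1.1, g.1.2.1 + k.1.2.1,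
        g.1.2.2.1 + k.1.2.2.1, g.1.2.2.2 + k.1.2.2.2),
        (g.2.1 + k.2.1 + g.1.1 * k.1.2.1,
          g.2.2 + k.2.2 + g.1.1 * k.1.2.2.2 + g.1.2.2.1 * k.1.2.1)) : E6)) =
      fun k => g + LinearMap.toContinuousLinearMap Llin k := by
    funext k
    simp only [LinearMap.coe_toContinuousLinearMap']
    ext <;> simp [Llin, field] <;> ring
  rw [h0]
  exact (LinearMap.toContinuousLinearMap Llin).hasFDerivAt.const_add g

lemma mulInvariantVectorField_eq (v : GroupLieAlgebra 𝓘(ℝ, E6) DH) (g : DH) :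
    mulInvariantVectorField (I := 𝓘(ℝ, E6)) v g = field v g := by
  obtain ⟨L, hL, hd⟩ := hasFDerivAt_mul_left g (1 : DH)
  have h1 : HasMFDerivAt 𝓘(ℝ, E6) 𝓘(ℝ, E6) (fun k : DH => g * k) (1 : DH) L := by
    have := hd.hasMFDerivAt
    exact this
  unfold mulInvariantVectorField
  rw [h1.mfderiv]
  exact hL v


/-- the bracket -/
def br (v w : E6) : E6 :=
  ((0, 0, 0, 0), (v.1.1 * w.1.2.1 - w.1.1 * v.1.2.1,
    v.1.1 * w.1.2.2.2 + v.1.2.2.1 * w.1.2.1 - w.1.1 * v.1.2.2.2 - w.1.2.2.1 * v.1.2.1))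

lemma hasFDerivAt_field (v g : E6) :
    ∃ L : E6 →L[ℝ] E6, (∀ w, L w = ((0, 0, 0, 0), (w.1.1 * v.1.2.1, w.1.1 * v.1.2.2.2 + w.1.2.2.1 * v.1.2.1))) ∧
      HasFDerivAt (fun k : E6 => field v k) L g := by
  let Llin : E6 →ₗ[ℝ] E6 :=
    { toFun := fun w => ((0, 0, 0, 0), (w.1.1 * v.1.2.1, w.1.1 * v.1.2.2.2 + w.1.2.2.1 * v.1.2.1))
      map_add' := by
        intro v w
        ext <;> simp <;> ring
      map_smul' := by
        intro c v
        ext <;> simp <;> ring }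
  refine ⟨LinearMap.toContinuousLinearMap Llin, fun v => rfl, ?_⟩
  have h0 : (fun k : E6 => field v k) =
      fun k => v + LinearMap.toContinuousLinearMap Llin k := by
    funext k
    simp only [LinearMap.coe_toContinuousLinearMap']
    ext <;> simp [Llin, field] <;> ring
  rw [h0]
  exact (LinearMap.toContinuousLinearMap Llin).hasFDerivAt.const_add v

lemma bracket_eq (v w : GroupLieAlgebra 𝓘(ℝ, E6) DH) : ⁅v, w⁆ = br v w := by
  rw [GroupLieAlgebra.bracket_def]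
  have hv : (mulInvariantVectorField (I := 𝓘(ℝ, E6)) v : (g : DH) → TangentSpace 𝓘(ℝ, E6) g) = fun g => field v g := by
    funext g
    exact mulInvariantVectorField_eq v g
  have hw : (mulInvariantVectorField (I := 𝓘(ℝ, E6)) w : (g : DH) → TangentSpace 𝓘(ℝ, E6) g) = fun g => field w g := by
    funext g
    exact mulInvariantVectorField_eq w g
  rw [hv, hw]
  have key : VectorField.mlieBracket 𝓘(ℝ, E6) (M := E6) (fun g => field v g) (fun g => field w g) (0 : E6) = br v w := by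
    rw [← VectorField.mlieBracketWithin_univ, VectorField.mlieBracketWithin_eq_lieBracketWithin,
      VectorField.lieBracketWithin_univ]
    obtain ⟨L1, hL1, h1⟩ := hasFDerivAt_field v 0
    obtain ⟨L2, hL2, h2⟩ := hasFDerivAt_field w 0
    rw [VectorField.lieBracket, h1.fderiv, h2.fderiv, hL1, hL2]
    have fin : ∀ v w : E6, ((((0, 0, 0, 0), ((field v 0).1.1 * w.1.2.1,
        (field v 0).1.1 * w.1.2.2.2 + (field v 0).1.2.2.1 * w.1.2.1)) : E6) -
        ((0, 0, 0, 0), ((field w 0).1.1 * v.1.2.1,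
        (field w 0).1.1 * v.1.2.2.2 + (field w 0).1.2.2.1 * v.1.2.1))) = br v w := by
      intro v w
      ext <;> simp [field, br] <;> ring
    exact fin v w
  exact key


lemma mem_layer1 (v : GroupLieAlgebra 𝓘(ℝ, E6) DH) : v ∈ layer1 ↔ (v : E6).2 = 0 := Iff.rfl
lemma mem_layer2 (v : GroupLieAlgebra 𝓘(ℝ, E6) DH) : v ∈ layer2 ↔ (v : E6).1 = 0 := Iff.rfl

lemma isCompl_layer : IsCompl layer1 layer2 := by
  rw [isCompl_iff]
  constructor
  · rw [Submodule.disjoint_def]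
    intro v h1 h2
    rw [mem_layer1] at h1
    rw [mem_layer2] at h2
    exact Prod.ext h2 h1
  · rw [codisjoint_iff, Submodule.eq_top_iff']
    intro v
    rw [Submodule.mem_sup]
    refine ⟨((v : E6).1, 0), ?_, (0, (v : E6).2), ?_, ?_⟩
    · rw [mem_layer1]
    · rw [mem_layer2]
    · exact Prod.ext (add_zero _) (zero_add _)

lemma bracketSpan_layer1_layer1 : bracketSpan layer1 layer1 = layer2 := by
  apply le_antisymm
  · rw [bracketSpan, Submodule.span_le]
    rintro w ⟨a, ha, b, hb, rfl⟩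
    rw [bracket_eq]
    exact rfl
  · intro w hw
    rw [mem_layer2] at hw
    have h1 : ((((0, 0, 0, 0), ((w : E6).2.1, 0)) : E6) : GroupLieAlgebra 𝓘(ℝ, E6) DH) ∈ bracketSpan layer1 layer1 := by
      apply Submodule.subset_span
      refine ⟨(((w : E6).2.1, 0, 0, 0), (0, 0)), rfl, ((0, 1, 0, 0), (0, 0)), rfl, ?_⟩
      rw [bracket_eq]
      exact Prod.ext rfl (Prod.ext (by simp [br]) (by simp [br]))
    have h2 : ((((0, 0, 0, 0), (0, (w : E6).2.2)) : E6) : GroupLieAlgebra 𝓘(ℝ, E6) DH) ∈ bracketSpan layer1 layer1 := by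
      apply Submodule.subset_span
      refine ⟨(((w : E6).2.2, 0, 0, 0), (0, 0)), rfl, ((0, 0, 0, 1), (0, 0)), rfl, ?_⟩
      rw [bracket_eq]
      exact Prod.ext rfl (Prod.ext (by simp [br]) (by simp [br]))
    have h3 := Submodule.add_mem _ h1 h2
    have h4 : w = ((((0, 0, 0, 0), ((w : E6).2.1, 0)) : E6) : GroupLieAlgebra 𝓘(ℝ, E6) DH) + ((((0, 0, 0, 0), (0, (w : E6).2.2)) : E6) : GroupLieAlgebra 𝓘(ℝ, E6) DH) := by
      refine Prod.ext (hw.trans ?_) (Prod.ext (add_zero _).symm (zero_add _).symm)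
      exact (add_zero (0 : ℝ × ℝ × ℝ × ℝ)).symm
    rw [h4]
    exact h3

lemma bracketSpan_layer1_layer2 : bracketSpan layer1 layer2 = ⊥ := by
  rw [eq_bot_iff, bracketSpan, Submodule.span_le]
  rintro w ⟨a, ha, b, hb, rfl⟩
  rw [mem_layer2] at hb
  rw [bracket_eq]
  have : br a b = 0 := by
    have hb1 : (b : E6).1.1 = 0 := by rw [hb]; rfl
    have hb2 : (b : E6).1.2.1 = 0 := by rw [hb]; rfl
    have hb3 : (b : E6).1.2.2.1 = 0 := by rw [hb]; rfl
    have hb4 : (b : E6).1.2.2.2 = 0 := by rw [hb]; rfl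
    unfold br
    rw [hb1, hb2, hb3, hb4]
    ext <;> simp
  exact this

lemma layer_isInternal : DirectSum.IsInternal (fun j : Fin 2 => layer (j + 1)) :=
  (DirectSum.isInternal_submodule_iff_isCompl (fun j : Fin 2 => layer (j + 1))
    (i := 0) (j := 1) (by decide) (by ext i; fin_cases i <;> simp)).2 isCompl_layer

/-- The Heisenberg group over the dual numbers is a Carnot group of step two. -/
lemma isCarnotGroup : IsCarnotGroup (E := E6) (N := DH) 2 layer where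
  finiteDimensional := inferInstance
  lieGroup := inferInstance
  t2Space := inferInstance
  secondCountable := inferInstance
  simplyConnected := inferInstance
  one_le := by norm_num
  independent := layer_isInternal.submodule_iSupIndep
  spans := layer_isInternal.submodule_iSup_eq_top
  bracket_eq := by
    intro j h1 h2
    have : j = 1 := by omega
    subst this
    exact bracketSpan_layer1_layer1
  bracket_top := bracketSpan_layer1_layer2
  top_ne_bot := by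
    intro h
    have h0 : ∀ v ∈ layer 2, v = 0 := by
      intro v hv
      rw [h] at hv
      simpa using hv
    have h3 := h0 ((((0, 0, 0, 0), (1, 0)) : E6) : GroupLieAlgebra 𝓘(ℝ, E6) DH) rfl
    have h2 : ((((0, 0, 0, 0), (1, 0)) : E6)).2.1 = 0 := by
      have := congrArg (fun v : E6 => v.2.1) h3
      exact this
    norm_num at h2

/-! ### lower central series -/

lemma commutator_x (g h : DH) : (g * h * g⁻¹ * h⁻¹).x = 0 := by simp
lemma commutator_z (g h : DH) : (g * h * g⁻¹ * h⁻¹).z = g.x * h.y - h.x * g.y := by simp; ring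
lemma commutator_z' (g h : DH) : (g * h * g⁻¹ * h⁻¹).z' =
    g.x * h.y' + g.x' * h.y - h.x * g.y' - h.x' * g.y := by simp; ring

/-- The subgroup of elements with trivial horizontal part. -/
def vert : Subgroup DH where
  carrier := {g | g.x = 0 ∧ g.y = 0 ∧ g.x' = 0 ∧ g.y' = 0}
  mul_mem' := by
    rintro a b ⟨h1, h2, h3, h4⟩ ⟨h5, h6, h7, h8⟩
    refine ⟨?_, ?_, ?_, ?_⟩ <;> simp [*]
  one_mem' := by refine ⟨?_, ?_, ?_, ?_⟩ <;> simp
  inv_mem' := by
    rintro a ⟨h1, h2, h3, h4⟩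
    refine ⟨?_, ?_, ?_, ?_⟩ <;> simp [*]

lemma lcs_one_le : (⊤ : Subgroup DH).lowerCentralSeries 1 ≤ vert := by
  rw [Subgroup.lowerCentralSeries_succ, Subgroup.commutator_le]
  intro g _ h _
  rw [commutatorElement_def]
  refine ⟨?_, ?_, ?_, ?_⟩ <;> simp

open scoped commutatorElement in
lemma mem_lcs_one (a : ℝ) : mk 0 0 0 0 a 0 ∈ (⊤ : Subgroup DH).lowerCentralSeries 1 := by
  have h : mk 0 0 0 0 a 0 = ⁅mk a 0 0 0 0 0, mk 0 1 0 0 0 0⁆ := by
    rw [commutatorElement_def]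
    ext <;> simp
  rw [h, Subgroup.lowerCentralSeries_succ]
  exact Subgroup.commutator_mem_commutator (Subgroup.mem_top _) (Subgroup.mem_top _)

/-! ### the map -/

def fα (x z : ℝ) : ℝ := x * Real.cos z / (1 + x ^ 2)
def fβ (x z : ℝ) : ℝ := 2 * x * Real.sin z / (1 + x ^ 2) ^ 2
def fγ (x z : ℝ) : ℝ := (1 + 3 * x ^ 2) * Real.sin z / (1 + x ^ 2) ^ 2

def shear (s : ℝ) (g : DH) : DH :=
  mk g.x g.y (g.x' + s * fα g.x g.z) (g.y' + s * fβ g.x g.z) g.z (g.z' + s * fγ g.x g.z)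

lemma shear_shear (s t : ℝ) (g : DH) : shear s (shear t g) = shear (s + t) g := by
  ext <;> simp [shear] <;> ring

lemma shear_zero (g : DH) : shear 0 g = g := by
  ext <;> simp [shear]

def shearEquiv : DH ≃ DH where
  toFun := shear 1
  invFun := shear (-1)
  left_inv g := by rw [shear_shear]; norm_num [shear_zero]
  right_inv g := by rw [shear_shear]; norm_num [shear_zero]

lemma contDiff_shear (s : ℝ) : ContDiff ℝ ∞ (fun g : E6 => (((g.1.1, g.1.2.1,
    g.1.2.2.1 + s * (g.1.1 * Real.cos g.2.1 / (1 + g.1.1 ^ 2)),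
    g.1.2.2.2 + s * (2 * g.1.1 * Real.sin g.2.1 / (1 + g.1.1 ^ 2) ^ 2)),
    (g.2.1, g.2.2 + s * ((1 + 3 * g.1.1 ^ 2) * Real.sin g.2.1 / (1 + g.1.1 ^ 2) ^ 2))) : E6)) := by
  have h1 : ∀ g : E6, (1 + g.1.1 ^ 2) ≠ 0 := fun g => by positivity
  have h2 : ∀ g : E6, (1 + g.1.1 ^ 2) ^ 2 ≠ 0 := fun g => by positivity
  fun_prop (disch := assumption)

lemma contMDiff_shear (s : ℝ) : ContMDiff 𝓘(ℝ, E6) 𝓘(ℝ, E6) ∞ (shear s) :=
  (contDiff_shear s).contMDiff

/-! ### derivative along curves -/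

def fαx (x z : ℝ) : ℝ := Real.cos z * (1 - x ^ 2) / (1 + x ^ 2) ^ 2
def fαy (x z : ℝ) : ℝ := - (x ^ 2 * Real.sin z) / (1 + x ^ 2)
def fβx (x z : ℝ) : ℝ := 2 * Real.sin z * (1 - 3 * x ^ 2) / (1 + x ^ 2) ^ 3
def fβy (x z : ℝ) : ℝ := 2 * x ^ 2 * Real.cos z / (1 + x ^ 2) ^ 2

lemma hasDerivAt_fα {x z : ℝ → ℝ} {t a b : ℝ} (hx : HasDerivAt x a t)
    (hz : HasDerivAt z (x t * b) t) :
    HasDerivAt (fun t => fα (x t) (z t)) (fαx (x t) (z t) * a + fαy (x t) (z t) * b) t := by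
  have h0 : (1 + (x t) ^ 2) ≠ 0 := by positivity
  have h := (hx.mul hz.cos).div ((hx.pow 2).const_add 1) h0
  refine HasDerivAt.congr_deriv (f := fun t => fα (x t) (z t)) h ?_
  simp only [fαx, fαy, Pi.mul_apply, Pi.pow_apply]
  field_simp
  ring

lemma hasDerivAt_fβ {x z : ℝ → ℝ} {t a b : ℝ} (hx : HasDerivAt x a t)
    (hz : HasDerivAt z (x t * b) t) :
    HasDerivAt (fun t => fβ (x t) (z t)) (fβx (x t) (z t) * a + fβy (x t) (z t) * b) t := by
  have h0 : (1 + (x t) ^ 2) ≠ 0 := by positivity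
  have h1 : (1 + (x t) ^ 2) ^ 2 ≠ 0 := by positivity
  have h := ((hx.const_mul 2).mul hz.sin).div (((hx.pow 2).const_add 1).pow 2) h1
  refine HasDerivAt.congr_deriv (f := fun t => fβ (x t) (z t)) h ?_
  simp only [fβx, fβy, Pi.mul_apply, Pi.pow_apply]
  field_simp
  ring

lemma hasDerivAt_fγ {x z : ℝ → ℝ} {t a b : ℝ} (hx : HasDerivAt x a t)
    (hz : HasDerivAt z (x t * b) t) :
    HasDerivAt (fun t => fγ (x t) (z t))
      (x t * (fβx (x t) (z t) * a + fβy (x t) (z t) * b) + fα (x t) (z t) * b) t := by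
  have h0 : (1 + (x t) ^ 2) ≠ 0 := by positivity
  have h1 : (1 + (x t) ^ 2) ^ 2 ≠ 0 := by positivity
  have h := ((((hx.pow 2).const_mul 3).const_add 1).mul hz.sin).div (((hx.pow 2).const_add 1).pow 2) h1
  refine HasDerivAt.congr_deriv (f := fun t => fγ (x t) (z t)) h ?_
  simp only [fβx, fβy, fα, Pi.mul_apply, Pi.pow_apply]
  field_simp
  ring

/-- the horizontal derivative of shear -/
def M (s : ℝ) (g : DH) (u : E6) : E6 :=
  ((u.1.1, u.1.2.1, u.1.2.2.1 + s * (fαx g.x g.z * u.1.1 + fαy g.x g.z * u.1.2.1),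
    u.1.2.2.2 + s * (fβx g.x g.z * u.1.1 + fβy g.x g.z * u.1.2.1)), (0, 0))

lemma hd_fst {A B : Type} [NormedAddCommGroup A] [NormedSpace ℝ A] [NormedAddCommGroup B]
    [NormedSpace ℝ B] {f : ℝ → A × B} {f' : A × B} {t : ℝ} (h : HasDerivAt f f' t) :
    HasDerivAt (fun t => (f t).1) f'.1 t :=
  (ContinuousLinearMap.fst ℝ A B).hasFDerivAt.comp_hasDerivAt t h

lemma hd_snd {A B : Type} [NormedAddCommGroup A] [NormedSpace ℝ A] [NormedAddCommGroup B]
    [NormedSpace ℝ B] {f : ℝ → A × B} {f' : A × B} {t : ℝ} (h : HasDerivAt f f' t) :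
    HasDerivAt (fun t => (f t).2) f'.2 t :=
  (ContinuousLinearMap.snd ℝ A B).hasFDerivAt.comp_hasDerivAt t h

/-- coordinates -/
def toE (g : DH) : E6 := g

lemma hasMFDerivAt_curve_iff (c : ℝ → DH) (t : ℝ) (w : E6) :
    HasMFDerivAt 𝓘(ℝ, ℝ) 𝓘(ℝ, E6) c t (ContinuousLinearMap.toSpanSingleton ℝ w) ↔
      HasDerivAt (fun t => toE (c t)) w t := by
  rw [hasDerivAt_iff_hasFDerivAt]
  exact hasMFDerivAt_iff_hasFDerivAt

lemma velocity_shear (s : ℝ) (c : ℝ → DH) (t : ℝ) (u : E6) (hu : u.2 = 0)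
    (h : HasDerivAt (fun t => toE (c t)) (field u (c t)) t) :
    HasDerivAt (fun t => toE (shear s (c t))) (field (M s (c t) u) (shear s (c t))) t := by
  have h1 : HasDerivAt (fun t => (toE (c t)).1) u.1 t := by
    have := hd_fst h
    exact this
  have h2 : HasDerivAt (fun t => (toE (c t)).2) (u.2.1 + (c t).x * u.1.2.1,
      u.2.2 + (c t).x * u.1.2.2.2 + (c t).x' * u.1.2.1) t := hd_snd h
  have hx : HasDerivAt (fun t => (c t).x) u.1.1 t := hd_fst h1
  have h12 : HasDerivAt (fun t => (toE (c t)).1.2) u.1.2 t := hd_snd h1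
  have hy : HasDerivAt (fun t => (c t).y) u.1.2.1 t := hd_fst h12
  have h122 : HasDerivAt (fun t => (toE (c t)).1.2.2) u.1.2.2 t :=
    hd_snd h12
  have hx' : HasDerivAt (fun t => (c t).x') u.1.2.2.1 t := hd_fst h122
  have hy' : HasDerivAt (fun t => (c t).y') u.1.2.2.2 t := hd_snd h122
  have hz0 : HasDerivAt (fun t => (c t).z) (u.2.1 + (c t).x * u.1.2.1) t :=
    hd_fst h2
  have hz'0 : HasDerivAt (fun t => (c t).z') (u.2.2 + (c t).x * u.1.2.2.2 + (c t).x' * u.1.2.1) t :=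
    hd_snd h2
  have hu1 : u.2.1 = 0 := by rw [hu]; rfl
  have hu2 : u.2.2 = 0 := by rw [hu]; rfl
  have hz : HasDerivAt (fun t => (c t).z) ((c t).x * u.1.2.1) t := by
    simpa [hu1] using hz0
  have hα := hasDerivAt_fα hx hz
  have hβ := hasDerivAt_fβ hx hz
  have hγ := hasDerivAt_fγ hx hz
  have h1 := hx.prodMk (hy.prodMk ((hx'.add (hα.const_mul s)).prodMk (hy'.add (hβ.const_mul s))))
  have h2 := hz.prodMk (hz'0.add (hγ.const_mul s))
  refine HasDerivAt.congr_deriv (f := fun t => toE (shear s (c t))) (h1.prodMk h2) ?_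
  simp only [field, M, shear]
  refine Prod.ext rfl (Prod.ext ?_ ?_)
  · show (c t).x * u.1.2.1 = 0 + (c t).x * u.1.2.1
    ring
  · show u.2.2 + (c t).x * u.1.2.2.2 + (c t).x' * u.1.2.1 + s *
      ((c t).x * (fβx (c t).x (c t).z * u.1.1 + fβy (c t).x (c t).z * u.1.2.1)
        + fα (c t).x (c t).z * u.1.2.1) =
      0 + (c t).x * (u.1.2.2.2 + s * (fβx (c t).x (c t).z * u.1.1 + fβy (c t).x (c t).z * u.1.2.1))
        + ((c t).x' + s * fα (c t).x (c t).z) * u.1.2.1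
    rw [hu2]
    ring

lemma exists_bound {V : Type} [AddCommGroup V] [Module ℝ V] [FiniteDimensional ℝ V]
    (ν : Seminorm ℝ V) (hν : ∀ v, ν v = 0 → v = 0) (f : V →ₗ[ℝ] ℝ) :
    ∃ C : ℝ, 0 ≤ C ∧ ∀ v, |f v| ≤ C * ν v := by
  let _ : Norm V := ⟨ν⟩
  have core : NormedSpace.Core ℝ V :=
    { norm_nonneg := fun v => apply_nonneg ν v
      norm_smul := fun c v => map_smul_eq_mul ν c v
      norm_triangle := fun v w => map_add_le_add ν v w
      norm_eq_zero_iff := fun v => ⟨hν v, fun h => by rw [h]; exact map_zero ν⟩ }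
  let _ : NormedAddCommGroup V := NormedAddCommGroup.ofCore core
  let _ : NormedSpace ℝ V := NormedSpace.ofCore core
  refine ⟨‖LinearMap.toContinuousLinearMap f‖, norm_nonneg _, fun v => ?_⟩
  exact (LinearMap.toContinuousLinearMap f).le_opNorm v

instance : FiniteDimensional ℝ (GroupLieAlgebra 𝓘(ℝ, E6) DH) :=
  inferInstanceAs (FiniteDimensional ℝ E6)

lemma bound_αx (x z : ℝ) : |fαx x z| ≤ 1 := by
  have h0 : 0 < (1 + x ^ 2) ^ 2 := by positivity
  rw [fαx, abs_div, abs_of_pos h0, div_le_one h0, abs_mul]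
  have h1 := Real.abs_cos_le_one z
  have h2 : |1 - x ^ 2| ≤ (1 + x ^ 2) ^ 2 := by
    rw [abs_le]
    constructor <;> nlinarith [sq_nonneg x, sq_nonneg (x ^ 2)]
  calc |Real.cos z| * |1 - x ^ 2| ≤ 1 * |1 - x ^ 2| := by gcongr
    _ ≤ (1 + x ^ 2) ^ 2 := by rw [one_mul]; exact h2

lemma bound_αy (x z : ℝ) : |fαy x z| ≤ 1 := by
  have h0 : 0 < 1 + x ^ 2 := by positivity
  rw [fαy, abs_div, abs_of_pos h0, div_le_one h0, abs_neg, abs_mul]
  have h1 := Real.abs_sin_le_one z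
  calc |x ^ 2| * |Real.sin z| ≤ |x ^ 2| * 1 := by gcongr
    _ ≤ 1 + x ^ 2 := by rw [mul_one, abs_of_nonneg (sq_nonneg x)]; linarith

lemma bound_βx (x z : ℝ) : |fβx x z| ≤ 6 := by
  have h0 : 0 < (1 + x ^ 2) ^ 3 := by positivity
  rw [fβx, abs_div, abs_of_pos h0, div_le_iff₀ h0, abs_mul, abs_mul]
  have h1 := Real.abs_sin_le_one z
  have h2 : |1 - 3 * x ^ 2| ≤ 3 * (1 + x ^ 2) ^ 3 := by
    rw [abs_le]
    constructor <;> nlinarith [sq_nonneg x, sq_nonneg (x ^ 2), sq_nonneg (x ^ 3)]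
  calc |2| * |Real.sin z| * |1 - 3 * x ^ 2| ≤ |2| * 1 * (3 * (1 + x ^ 2) ^ 3) := by gcongr
    _ = 6 * (1 + x ^ 2) ^ 3 := by norm_num; ring

lemma bound_βy (x z : ℝ) : |fβy x z| ≤ 2 := by
  have h0 : 0 < (1 + x ^ 2) ^ 2 := by positivity
  rw [fβy, abs_div, abs_of_pos h0, div_le_iff₀ h0, abs_mul, abs_mul]
  have h1 := Real.abs_cos_le_one z
  have h2 : |x ^ 2| ≤ (1 + x ^ 2) ^ 2 := by
    rw [abs_of_nonneg (sq_nonneg x)]
    nlinarith [sq_nonneg x, sq_nonneg (x ^ 2)]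
  calc |2| * |x ^ 2| * |Real.cos z| ≤ |2| * (1 + x ^ 2) ^ 2 * 1 := by gcongr
    _ = 2 * (1 + x ^ 2) ^ 2 := by norm_num

/-- M as an endomap of layer1 -/
def Mlayer (s : ℝ) (g : DH) (u : layer1) : layer1 := ⟨M s g (u : GroupLieAlgebra 𝓘(ℝ, E6) DH), rfl⟩

def eX' : layer1 := ⟨(((0, 0, 1, 0), (0, 0)) : E6), rfl⟩
def eY' : layer1 := ⟨(((0, 0, 0, 1), (0, 0)) : E6), rfl⟩

/-- the coordinate a -/
def ca : layer1 →ₗ[ℝ] ℝ :=
  ((LinearMap.fst ℝ ℝ (ℝ × ℝ × ℝ)).comp (LinearMap.fst ℝ (ℝ × ℝ × ℝ × ℝ) (ℝ × ℝ))).comp layer1.subtype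

def cb : layer1 →ₗ[ℝ] ℝ :=
  (((LinearMap.fst ℝ ℝ (ℝ × ℝ)).comp (LinearMap.snd ℝ ℝ (ℝ × ℝ × ℝ))).comp
    (LinearMap.fst ℝ (ℝ × ℝ × ℝ × ℝ) (ℝ × ℝ))).comp layer1.subtype

lemma Mlayer_eq (s : ℝ) (g : DH) (u : layer1) : Mlayer s g u =
    u + (s * (fαx g.x g.z * ca u + fαy g.x g.z * cb u)) • eX' +
      (s * (fβx g.x g.z * ca u + fβy g.x g.z * cb u)) • eY' := by
  obtain ⟨⟨⟨a, b, a', b'⟩, ⟨w, w'⟩⟩, hu⟩ := u
  have hw : ((w, w') : ℝ × ℝ) = 0 := hu
  have hw1 : w = 0 := congrArg Prod.fst hw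
  have hw2 : w' = 0 := congrArg Prod.snd hw
  subst hw1 hw2
  apply Subtype.ext
  refine Prod.ext (Prod.ext ?_ (Prod.ext ?_ (Prod.ext ?_ ?_))) (Prod.ext ?_ ?_)
  · show a = a + (s * (fαx g.x g.z * a + fαy g.x g.z * b)) * 0 +
      (s * (fβx g.x g.z * a + fβy g.x g.z * b)) * 0
    ring
  · show b = b + (s * (fαx g.x g.z * a + fαy g.x g.z * b)) * 0 +
      (s * (fβx g.x g.z * a + fβy g.x g.z * b)) * 0
    ring
  · show a' + s * (fαx g.x g.z * a + fαy g.x g.z * b) =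
      a' + (s * (fαx g.x g.z * a + fαy g.x g.z * b)) * 1 +
      (s * (fβx g.x g.z * a + fβy g.x g.z * b)) * 0
    ring
  · show b' + s * (fβx g.x g.z * a + fβy g.x g.z * b) =
      b' + (s * (fαx g.x g.z * a + fαy g.x g.z * b)) * 0 +
      (s * (fβx g.x g.z * a + fβy g.x g.z * b)) * 1
    ring
  · show (0 : ℝ) = 0 + (s * (fαx g.x g.z * a + fαy g.x g.z * b)) * 0 +
      (s * (fβx g.x g.z * a + fβy g.x g.z * b)) * 0
    ring
  · show (0 : ℝ) = 0 + (s * (fαx g.x g.z * a + fαy g.x g.z * b)) * 0 +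
      (s * (fβx g.x g.z * a + fβy g.x g.z * b)) * 0
    ring

lemma Mlayer_bound (ν : Seminorm ℝ layer1) (hν : ∀ v, ν v = 0 → v = 0) (s : ℝ) :
    ∃ C : ℝ, 0 ≤ C ∧ ∀ (g : DH) (u : layer1), ν (Mlayer s g u) ≤ C * ν u := by
  obtain ⟨Ca, hCa0, hCa⟩ := exists_bound ν hν ca
  obtain ⟨Cb, hCb0, hCb⟩ := exists_bound ν hν cb
  refine ⟨1 + |s| * (Ca + Cb) * ν eX' + |s| * (6 * Ca + 2 * Cb) * ν eY', ?_, ?_⟩
  · have := apply_nonneg ν eX'
    have := apply_nonneg ν eY'
    positivity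
  · intro g u
    rw [Mlayer_eq]
    have hu := apply_nonneg ν u
    have hX := apply_nonneg ν eX'
    have hY := apply_nonneg ν eY'
    have e1 : |s * (fαx g.x g.z * ca u + fαy g.x g.z * cb u)| ≤ |s| * ((Ca + Cb) * ν u) := by
      rw [abs_mul]
      gcongr
      calc |fαx g.x g.z * ca u + fαy g.x g.z * cb u|
          ≤ |fαx g.x g.z * ca u| + |fαy g.x g.z * cb u| := abs_add_le _ _
        _ = |fαx g.x g.z| * |ca u| + |fαy g.x g.z| * |cb u| := by rw [abs_mul, abs_mul]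
        _ ≤ 1 * (Ca * ν u) + 1 * (Cb * ν u) := by
          gcongr
          · exact bound_αx _ _
          · exact hCa u
          · exact bound_αy _ _
          · exact hCb u
        _ = (Ca + Cb) * ν u := by ring
    have e2 : |s * (fβx g.x g.z * ca u + fβy g.x g.z * cb u)| ≤ |s| * ((6 * Ca + 2 * Cb) * ν u) := by
      rw [abs_mul]
      gcongr
      calc |fβx g.x g.z * ca u + fβy g.x g.z * cb u|
          ≤ |fβx g.x g.z * ca u| + |fβy g.x g.z * cb u| := abs_add_le _ _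
        _ = |fβx g.x g.z| * |ca u| + |fβy g.x g.z| * |cb u| := by rw [abs_mul, abs_mul]
        _ ≤ 6 * (Ca * ν u) + 2 * (Cb * ν u) := by
          gcongr
          · exact bound_βx _ _
          · exact hCa u
          · exact bound_βy _ _
          · exact hCb u
        _ = (6 * Ca + 2 * Cb) * ν u := by ring
    calc ν (u + (s * (fαx g.x g.z * ca u + fαy g.x g.z * cb u)) • eX' +
      (s * (fβx g.x g.z * ca u + fβy g.x g.z * cb u)) • eY')
        ≤ ν u + ν ((s * (fαx g.x g.z * ca u + fαy g.x g.z * cb u)) • eX') +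
          ν ((s * (fβx g.x g.z * ca u + fβy g.x g.z * cb u)) • eY') :=
          (map_add_le_add ν _ _).trans (by gcongr; exact map_add_le_add ν _ _)
      _ = ν u + |s * (fαx g.x g.z * ca u + fαy g.x g.z * cb u)| * ν eX' +
          |s * (fβx g.x g.z * ca u + fβy g.x g.z * cb u)| * ν eY' := by
          rw [map_smul_eq_mul, map_smul_eq_mul, Real.norm_eq_abs, Real.norm_eq_abs]
      _ ≤ ν u + (|s| * ((Ca + Cb) * ν u)) * ν eX' +
          (|s| * ((6 * Ca + 2 * Cb) * ν u)) * ν eY' := by gcongr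
      _ = (1 + |s| * (Ca + Cb) * ν eX' + |s| * (6 * Ca + 2 * Cb) * ν eY') * ν u := by ring

lemma isHorizontalCurve_shear (s : ℝ) {c : ℝ → DH} {u : ℝ → layer1}
    (h : IsHorizontalCurve (E := E6) layer1 c u) :
    IsHorizontalCurve (E := E6) layer1 (shear s ∘ c) (fun t => Mlayer s (c t) (u t)) where
  continuousOn := (contMDiff_shear s).continuous.comp_continuousOn h.continuousOn
  absolutelyContinuous := by
    intro φ hφ
    exact h.absolutelyContinuous (φ ∘ shear s) (hφ.comp (contMDiff_shear s))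
  velocity := by
    filter_upwards [h.velocity] with t ht hmem
    have h1 := ht hmem
    rw [mulInvariantVectorField_eq] at h1 ⊢
    have h2 := (hasMFDerivAt_curve_iff c t _).1 h1
    have h3 := velocity_shear s c t (u t : GroupLieAlgebra 𝓘(ℝ, E6) DH) (u t).2 h2
    exact (hasMFDerivAt_curve_iff _ t _).2 h3

lemma carnotEDist_shear_le (ν : Seminorm ℝ layer1) (hν : ∀ v, ν v = 0 → v = 0) (s : ℝ) :
    ∃ C : NNReal, ∀ p q : DH, carnotEDist (E := E6) layer1 ν (shear s p) (shear s q) ≤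
      C * carnotEDist (E := E6) layer1 ν p q := by
  obtain ⟨C, hC0, hC⟩ := Mlayer_bound ν hν s
  refine ⟨⟨C, hC0⟩ + 1, fun p q => ?_⟩
  have h0 : (((⟨C, hC0⟩ + 1 : NNReal)) : ENNReal) ≠ 0 := by
    rw [ENNReal.coe_ne_zero]
    positivity
  have htop : (((⟨C, hC0⟩ + 1 : NNReal)) : ENNReal) ≠ ⊤ := ENNReal.coe_ne_top
  conv_rhs => rw [carnotEDist]
  simp only [ENNReal.mul_iInf_of_ne h0 htop]
  refine le_iInf fun c => le_iInf fun u => le_iInf fun hc => le_iInf fun hp => le_iInf fun hq => ?_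
  refine (carnotEDist_le (E := E6) ν (isHorizontalCurve_shear s hc) (p := shear s p)
    (q := shear s q) ?_ ?_).trans ?_
  · simp [hp]
  · simp [hq]
  · rw [← MeasureTheory.lintegral_const_mul' _ _ htop]
    refine MeasureTheory.lintegral_mono fun t => ?_
    have h1 : ENNReal.ofReal (ν (Mlayer s (c t) (u t))) ≤ ENNReal.ofReal ((C + 1) * ν (u t)) := by
      apply ENNReal.ofReal_le_ofReal
      have := hC (c t) (u t)
      have h2 := apply_nonneg ν (u t)
      linarith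
    refine h1.trans_eq ?_
    rw [ENNReal.ofReal_mul (by positivity)]
    congr 1
    rw [ENNReal.ofReal_eq_coe_nnreal (by positivity)]
    rfl

/-! ### The Carnot distance is finite -/

/-- `∫₀ᵗ (x₀ + a s + l (s - s²)) (b + m (1 - 6 s + 6 s²)) ds`. -/
def J (x₀ a l b m t : ℝ) : ℝ :=
  b * (x₀ * t + a * t ^ 2 / 2 + l * (t ^ 2 / 2 - t ^ 3 / 3)) +
    m * (x₀ * (t - 3 * t ^ 2 + 2 * t ^ 3) + a * (t ^ 2 / 2 - 2 * t ^ 3 + 3 * t ^ 4 / 2) +
      l * (t ^ 2 / 2 - 7 * t ^ 3 / 3 + 3 * t ^ 4 - 6 * t ^ 5 / 5))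

lemma hasDerivAt_J (x₀ a l b m t : ℝ) : HasDerivAt (J x₀ a l b m)
    ((x₀ + a * t + l * (t - t ^ 2)) * (b + m * (1 - 6 * t + 6 * t ^ 2))) t := by
  have h1 := hasDerivAt_id t
  have h2 := hasDerivAt_pow 2 t
  have h3 := hasDerivAt_pow 3 t
  have h4 := hasDerivAt_pow 4 t
  have h5 := hasDerivAt_pow 5 t
  have h := ((((h1.const_mul x₀).add ((h2.const_mul a).div_const 2)).add
    (((h2.div_const 2).sub (h3.div_const 3)).const_mul l)).const_mul b).add
    (((((h1.sub (h2.const_mul 3)).add (h3.const_mul 2)).const_mul x₀).add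
    ((((h2.div_const 2).sub (h3.const_mul 2)).add ((h4.const_mul 3).div_const 2)).const_mul a)).add
    (((((h2.div_const 2).sub ((h3.const_mul 7).div_const 3)).add (h4.const_mul 3)).sub
      ((h5.const_mul 6).div_const 5)).const_mul l) |>.const_mul m)
  refine HasDerivAt.congr_deriv (f := J x₀ a l b m) h ?_
  push_cast
  ring

/-- A smooth horizontal curve from `g` with prescribed parameters. -/
def curve (g : DH) (a b a' b' l m l' : ℝ) (t : ℝ) : DH :=
  mk (g.x + a * t + l * (t - t ^ 2)) (g.y + b * t + m * (t - 3 * t ^ 2 + 2 * t ^ 3))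
    (g.x' + a' * t + l' * (t - t ^ 2)) (g.y' + b' * t)
    (g.z + J g.x a l b m t)
    (g.z' + (J g.x a l b' 0 t + J g.x' a' l' b m t))

/-- Its left-trivialised velocity. -/
def curveVel (a b a' b' l m l' : ℝ) (t : ℝ) : layer1 :=
  ⟨((a + l * (1 - 2 * t), b + m * (1 - 6 * t + 6 * t ^ 2), a' + l' * (1 - 2 * t), b'), (0, 0)), rfl⟩

lemma hasDerivAt_curve (g : DH) (a b a' b' l m l' : ℝ) (t : ℝ) :
    HasDerivAt (fun t => toE (curve g a b a' b' l m l' t))
      (field (curveVel a b a' b' l m l' t : GroupLieAlgebra 𝓘(ℝ, E6) DH)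
        (curve g a b a' b' l m l' t)) t := by
  have h1 := hasDerivAt_id t
  have h2 := hasDerivAt_pow 2 t
  have h3 := hasDerivAt_pow 3 t
  have hx := ((h1.const_mul a).const_add g.x).add ((h1.sub h2).const_mul l)
  have hy := ((h1.const_mul b).const_add g.y).add
    (((h1.sub (h2.const_mul 3)).add (h3.const_mul 2)).const_mul m)
  have hx' := ((h1.const_mul a').const_add g.x').add ((h1.sub h2).const_mul l')
  have hy' := (h1.const_mul b').const_add g.y'
  have hz := (hasDerivAt_J g.x a l b m t).const_add g.z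
  have hz' := ((hasDerivAt_J g.x a l b' 0 t).add (hasDerivAt_J g.x' a' l' b m t)).const_add g.z'
  refine HasDerivAt.congr_deriv (f := fun t => toE (curve g a b a' b' l m l' t))
    ((hx.prodMk (hy.prodMk (hx'.prodMk hy'))).prodMk (hz.prodMk hz')) ?_
  refine Prod.ext (Prod.ext ?_ (Prod.ext ?_ (Prod.ext ?_ ?_))) (Prod.ext ?_ ?_)
  · show a * 1 + l * (1 - (2 : ℕ) * t ^ (2 - 1)) = a + l * (1 - 2 * t)
    push_cast; ring
  · show b * 1 + m * (1 - 3 * ((2 : ℕ) * t ^ (2 - 1)) + 2 * ((3 : ℕ) * t ^ (3 - 1))) =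
      b + m * (1 - 6 * t + 6 * t ^ 2)
    push_cast; ring
  · show a' * 1 + l' * (1 - (2 : ℕ) * t ^ (2 - 1)) = a' + l' * (1 - 2 * t)
    push_cast; ring
  · show b' * 1 = b'
    ring
  · show (g.x + a * t + l * (t - t ^ 2)) * (b + m * (1 - 6 * t + 6 * t ^ 2)) =
      0 + (g.x + a * t + l * (t - t ^ 2)) * (b + m * (1 - 6 * t + 6 * t ^ 2))
    ring
  · show (g.x + a * t + l * (t - t ^ 2)) * (b' + 0 * (1 - 6 * t + 6 * t ^ 2)) +
      (g.x' + a' * t + l' * (t - t ^ 2)) * (b + m * (1 - 6 * t + 6 * t ^ 2)) =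
      0 + (g.x + a * t + l * (t - t ^ 2)) * b' +
      (g.x' + a' * t + l' * (t - t ^ 2)) * (b + m * (1 - 6 * t + 6 * t ^ 2))
    ring

lemma contDiff_curve (g : DH) (a b a' b' l m l' : ℝ) :
    ContDiff ℝ ∞ (fun t => toE (curve g a b a' b' l m l' t)) := by
  unfold curve J toE mk
  fun_prop

lemma isHorizontalCurve_curve (g : DH) (a b a' b' l m l' : ℝ) :
    IsHorizontalCurve (E := E6) layer1 (curve g a b a' b' l m l') (curveVel a b a' b' l m l') where
  continuousOn := (contDiff_curve g a b a' b' l m l').continuous.continuousOn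
  absolutelyContinuous := by
    intro φ hφ
    have h1 : ContDiff ℝ ∞ (fun v : E6 => φ v) := hφ.contDiff
    have h2 : ContDiff ℝ ∞ (φ ∘ curve g a b a' b' l m l') :=
      h1.comp (contDiff_curve g a b a' b' l m l')
    exact (h2.of_le (by simp)).contDiffOn.absolutelyContinuousOnInterval
  velocity := by
    refine Filter.Eventually.of_forall fun t _ => ?_
    rw [mulInvariantVectorField_eq]
    exact (hasMFDerivAt_curve_iff _ t _).2 (hasDerivAt_curve g a b a' b' l m l' t)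

lemma exists_horizontalCurve (p q : DH) : ∃ a b a' b' l m l' : ℝ,
    curve p a b a' b' l m l' 0 = p ∧ curve p a b a' b' l m l' 1 = q := by
  refine ⟨q.x - p.x, q.y - p.y, q.x' - p.x', q.y' - p.y',
    (q.z - p.z) - (q.y - p.y) * p.x - (q.x - p.x) * (q.y - p.y) / 2,
    5 * (q.y - p.y) - 30,
    (q.z' - p.z') - (q.y' - p.y') * (p.x + (q.x - p.x) / 2 +
      ((q.z - p.z) - (q.y - p.y) * p.x - (q.x - p.x) * (q.y - p.y) / 2) / 6) -
      (q.y - p.y) * p.x' - (q.x' - p.x') * (q.y - p.y) / 2, ?_, ?_⟩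
  · ext <;> simp [curve, J]
  · ext
    · simp [curve]
    · simp only [curve, mk_y]; ring
    · simp [curve]
    · simp [curve]
    · simp only [curve, J, mk_z]; ring
    · simp only [curve, J, mk_z']; ring

lemma continuous_curveVel_coord (a b a' b' l m l' : ℝ) (ν : Seminorm ℝ layer1) :
    ∃ C : ℝ, ∀ t ∈ Icc (0 : ℝ) 1, ν (curveVel a b a' b' l m l' t) ≤ C := by
  let e1 : layer1 := ⟨(((1, 0, 0, 0), (0, 0)) : E6), rfl⟩
  let e2 : layer1 := ⟨(((0, 1, 0, 0), (0, 0)) : E6), rfl⟩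
  have hdec : ∀ t, curveVel a b a' b' l m l' t = (a + l * (1 - 2 * t)) • e1 +
      (b + m * (1 - 6 * t + 6 * t ^ 2)) • e2 + (a' + l' * (1 - 2 * t)) • eX' + b' • eY' := by
    intro t
    apply Subtype.ext
    refine Prod.ext (Prod.ext ?_ (Prod.ext ?_ (Prod.ext ?_ ?_))) (Prod.ext ?_ ?_)
    · show a + l * (1 - 2 * t) = (a + l * (1 - 2 * t)) * 1 +
        (b + m * (1 - 6 * t + 6 * t ^ 2)) * 0 + (a' + l' * (1 - 2 * t)) * 0 + b' * 0
      ring
    · show b + m * (1 - 6 * t + 6 * t ^ 2) = (a + l * (1 - 2 * t)) * 0 +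
        (b + m * (1 - 6 * t + 6 * t ^ 2)) * 1 + (a' + l' * (1 - 2 * t)) * 0 + b' * 0
      ring
    · show a' + l' * (1 - 2 * t) = (a + l * (1 - 2 * t)) * 0 +
        (b + m * (1 - 6 * t + 6 * t ^ 2)) * 0 + (a' + l' * (1 - 2 * t)) * 1 + b' * 0
      ring
    · show b' = (a + l * (1 - 2 * t)) * 0 +
        (b + m * (1 - 6 * t + 6 * t ^ 2)) * 0 + (a' + l' * (1 - 2 * t)) * 0 + b' * 1
      ring
    · show (0 : ℝ) = (a + l * (1 - 2 * t)) * 0 +
        (b + m * (1 - 6 * t + 6 * t ^ 2)) * 0 + (a' + l' * (1 - 2 * t)) * 0 + b' * 0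
      ring
    · show (0 : ℝ) = (a + l * (1 - 2 * t)) * 0 +
        (b + m * (1 - 6 * t + 6 * t ^ 2)) * 0 + (a' + l' * (1 - 2 * t)) * 0 + b' * 0
      ring
  let B : ℝ → ℝ := fun t => |a + l * (1 - 2 * t)| * ν e1 +
      |b + m * (1 - 6 * t + 6 * t ^ 2)| * ν e2 + |a' + l' * (1 - 2 * t)| * ν eX' + |b'| * ν eY'
  have hB : Continuous B := by fun_prop
  obtain ⟨C, hC⟩ := (isCompact_Icc (a := (0 : ℝ)) (b := 1)).exists_bound_of_continuousOn
    hB.continuousOn
  refine ⟨C, fun t ht => ?_⟩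
  have h1 : ν (curveVel a b a' b' l m l' t) ≤ B t := by
    rw [hdec]
    refine (map_add_le_add ν _ _).trans ?_
    refine (add_le_add_left (map_add_le_add ν _ _) _).trans ?_
    refine (add_le_add_left (add_le_add_left (map_add_le_add ν _ _) _) _).trans ?_
    simp only [map_smul_eq_mul, Real.norm_eq_abs]
    exact le_rfl
  exact h1.trans ((le_abs_self _).trans (hC t ht))

/-- The Carnot distance between any two points is finite. -/
lemma carnotEDist_ne_top (ν : Seminorm ℝ layer1) (p q : DH) :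
    carnotEDist (E := E6) layer1 ν p q ≠ ⊤ := by
  obtain ⟨a, b, a', b', l, m, l', h0, h1⟩ := exists_horizontalCurve p q
  obtain ⟨C, hC⟩ := continuous_curveVel_coord a b a' b' l m l' ν
  have h := carnotEDist_le (E := E6) ν (isHorizontalCurve_curve p a b a' b' l m l') h0 h1
  refine ne_top_of_le_ne_top ?_ h
  have h2 : ∫⁻ t in Icc (0 : ℝ) 1, ENNReal.ofReal (ν (curveVel a b a' b' l m l' t)) ≤
      ∫⁻ _ in Icc (0 : ℝ) 1, ENNReal.ofReal C := by
    refine MeasureTheory.setLIntegral_mono' measurableSet_Icc fun t ht => ?_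
    exact ENNReal.ofReal_le_ofReal (hC t ht)
  refine ne_top_of_le_ne_top ?_ h2
  simp

/-! ### The Carnot distance separates points -/

lemma coord_est {f v w : ℝ → ℝ} (hf : AbsolutelyContinuousOnInterval f 0 1)
    (hd : ∀ᵐ t : ℝ, t ∈ Ioo (0 : ℝ) 1 → HasDerivAt f (v t) t)
    (hw : ∀ᵐ t : ℝ, t ∈ Ioo (0 : ℝ) 1 → |v t| ≤ w t)
    {L : ENNReal} (hL : ∫⁻ t in Icc (0 : ℝ) 1, ENNReal.ofReal (w t) ≤ L) (hLtop : L ≠ ⊤)
    {s : ℝ} (hs : s ∈ Icc (0 : ℝ) 1) : |f s - f 0| ≤ L.toReal := by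
  have h1 : AbsolutelyContinuousOnInterval f 0 s := by
    apply hf.mono
    rw [uIcc_of_le hs.1, uIcc_of_le zero_le_one]
    exact Icc_subset_Icc le_rfl hs.2
  rw [← h1.integral_deriv_eq_sub, intervalIntegral.integral_of_le hs.1, ← Real.norm_eq_abs]
  refine (norm_integral_le_lintegral_norm _).trans ?_
  apply ENNReal.toReal_mono hLtop
  refine le_trans ?_ hL
  have h2 : ∫⁻ t in Ioc (0 : ℝ) s, ENNReal.ofReal ‖deriv f t‖ ≤
      ∫⁻ t in Ioc (0 : ℝ) s, ENNReal.ofReal (w t) := by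
    apply MeasureTheory.lintegral_mono_ae
    refine (ae_restrict_iff' measurableSet_Ioc).2 ?_
    have hne : ∀ᵐ t : ℝ, t ≠ 1 := by
      simp [ae_iff, measure_singleton]
    filter_upwards [hd, hw, hne] with t h3 h4 h5 h6
    have hmem : t ∈ Ioo (0 : ℝ) 1 := ⟨h6.1, lt_of_le_of_ne (h6.2.trans hs.2) h5⟩
    rw [(h3 hmem).deriv]
    exact ENNReal.ofReal_le_ofReal (h4 hmem)
  refine h2.trans ?_
  apply MeasureTheory.lintegral_mono_set
  exact (Ioc_subset_Icc_self).trans (Icc_subset_Icc le_rfl hs.2)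


lemma eq_zero_of_small {A K : ℝ} (h : ∀ ε : ℝ, 0 < ε → ε ≤ 1 → |A| ≤ K * ε) : A = 0 := by
  by_contra hA
  have hA' : 0 < |A| := abs_pos.mpr hA
  have hK : 0 < K := by
    have := h 1 one_pos le_rfl
    linarith
  have h1 := h (min 1 (|A| / (2 * K))) (by positivity) (min_le_left _ _)
  have h2 : K * min 1 (|A| / (2 * K)) ≤ K * (|A| / (2 * K)) :=
    mul_le_mul_of_nonneg_left (min_le_right _ _) hK.le
  have h3 : K * (|A| / (2 * K)) = |A| / 2 := by field_simp
  linarith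

/-- The coordinate `a'`. -/
def ca' : layer1 →ₗ[ℝ] ℝ :=
  (((LinearMap.fst ℝ ℝ ℝ).comp (LinearMap.snd ℝ ℝ (ℝ × ℝ))).comp
    ((LinearMap.snd ℝ ℝ (ℝ × ℝ × ℝ)).comp
    (LinearMap.fst ℝ (ℝ × ℝ × ℝ × ℝ) (ℝ × ℝ)))).comp layer1.subtype

/-- The coordinate `b'`. -/
def cb' : layer1 →ₗ[ℝ] ℝ :=
  (((LinearMap.snd ℝ ℝ ℝ).comp (LinearMap.snd ℝ ℝ (ℝ × ℝ))).comp
    ((LinearMap.snd ℝ ℝ (ℝ × ℝ × ℝ)).comp
    (LinearMap.fst ℝ (ℝ × ℝ × ℝ × ℝ) (ℝ × ℝ)))).comp layer1.subtype

lemma hasDerivAt_coords {c : ℝ → DH} {u : layer1} {t : ℝ}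
    (h : HasMFDerivAt 𝓘(ℝ, ℝ) 𝓘(ℝ, E6) c t
      (ContinuousLinearMap.toSpanSingleton ℝ
        (mulInvariantVectorField (I := 𝓘(ℝ, E6)) (u : GroupLieAlgebra 𝓘(ℝ, E6) DH) (c t)))) :
    HasDerivAt (fun t => (c t).x) (ca u) t ∧ HasDerivAt (fun t => (c t).y) (cb u) t ∧
    HasDerivAt (fun t => (c t).x') (ca' u) t ∧ HasDerivAt (fun t => (c t).y') (cb' u) t ∧
    HasDerivAt (fun t => (c t).z) ((c t).x * cb u) t ∧
    HasDerivAt (fun t => (c t).z') ((c t).x * cb' u + (c t).x' * cb u) t := by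
  obtain ⟨⟨⟨a, b, a', b'⟩, ⟨w, w'⟩⟩, hu⟩ := u
  have hw : ((w, w') : ℝ × ℝ) = 0 := hu
  have hw1 : w = 0 := congrArg Prod.fst hw
  have hw2 : w' = 0 := congrArg Prod.snd hw
  subst hw1 hw2
  rw [mulInvariantVectorField_eq] at h
  have h := (hasMFDerivAt_curve_iff c t _).1 h
  have h1 := hd_fst h
  have h2 := hd_snd h
  have hx := hd_fst h1
  have h12 := hd_snd h1
  have hy := hd_fst h12
  have h122 := hd_snd h12
  have hx' := hd_fst h122
  have hy' := hd_snd h122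
  have hz := hd_fst h2
  have hz' := hd_snd h2
  refine ⟨hx, hy, hx', hy', ?_, ?_⟩
  · refine HasDerivAt.congr_deriv hz ?_
    show 0 + (c t).x * b = (c t).x * b
    ring
  · refine HasDerivAt.congr_deriv hz' ?_
    show 0 + (c t).x * b' + (c t).x' * b = (c t).x * b' + (c t).x' * b
    ring

lemma contMDiff_of_contDiff {φ : E6 → ℝ} (h : ContDiff ℝ ∞ φ) :
    ContMDiff 𝓘(ℝ, E6) 𝓘(ℝ, ℝ) ∞ (fun g : DH => φ (toE g)) := h.contMDiff

/-- Estimates for the displacement along a horizontal curve of length at most `ℓ`. -/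
lemma curve_estimates (ν : Seminorm ℝ layer1) (hν : ∀ v, ν v = 0 → v = 0) :
    ∃ C : ℝ, 0 ≤ C ∧ ∀ (c : ℝ → DH) (u : ℝ → layer1),
      IsHorizontalCurve (E := E6) layer1 c u → ∀ ℓ : ℝ, 0 ≤ ℓ →
      ∫⁻ t in Icc (0 : ℝ) 1, ENNReal.ofReal (ν (u t)) ≤ ENNReal.ofReal ℓ →
      |(c 1).x - (c 0).x| ≤ C * ℓ ∧ |(c 1).y - (c 0).y| ≤ C * ℓ ∧
      |(c 1).x' - (c 0).x'| ≤ C * ℓ ∧ |(c 1).y' - (c 0).y'| ≤ C * ℓ ∧
      |((c 1).z - (c 0).x * (c 1).y) - ((c 0).z - (c 0).x * (c 0).y)| ≤ (C * ℓ) * (C * ℓ) ∧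
      |((c 1).z' - (c 0).x * (c 1).y' - (c 0).x' * (c 1).y) -
        ((c 0).z' - (c 0).x * (c 0).y' - (c 0).x' * (c 0).y)| ≤ 2 * ((C * ℓ) * (C * ℓ)) := by
  obtain ⟨Ca, hCa0, hCa⟩ := exists_bound ν hν ca
  obtain ⟨Cb, hCb0, hCb⟩ := exists_bound ν hν cb
  obtain ⟨Ca', hCa0', hCa'⟩ := exists_bound ν hν ca'
  obtain ⟨Cb', hCb0', hCb'⟩ := exists_bound ν hν cb'
  refine ⟨Ca + Cb + Ca' + Cb', by positivity, ?_⟩
  intro c u hc ℓ hℓ hlen
  set C := Ca + Cb + Ca' + Cb' with hC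
  have hC0 : 0 ≤ C := by positivity
  have b1 : ∀ v, |ca v| ≤ C * ν v := fun v => (hCa v).trans (by
    have := apply_nonneg ν v
    gcongr
    linarith)
  have b2 : ∀ v, |cb v| ≤ C * ν v := fun v => (hCb v).trans (by
    have := apply_nonneg ν v
    gcongr
    linarith)
  have b3 : ∀ v, |ca' v| ≤ C * ν v := fun v => (hCa' v).trans (by
    have := apply_nonneg ν v
    gcongr
    linarith)
  have b4 : ∀ v, |cb' v| ≤ C * ν v := fun v => (hCb' v).trans (by
    have := apply_nonneg ν v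
    gcongr
    linarith)
  -- the length bound for multiples
  have hmul : ∀ K : ℝ, 0 ≤ K → ∫⁻ t in Icc (0 : ℝ) 1, ENNReal.ofReal (K * ν (u t)) ≤
      ENNReal.ofReal (K * ℓ) := by
    intro K hK
    have e1 : ∀ t, ENNReal.ofReal (K * ν (u t)) = ENNReal.ofReal K * ENNReal.ofReal (ν (u t)) :=
      fun t => ENNReal.ofReal_mul hK
    simp only [e1]
    rw [MeasureTheory.lintegral_const_mul' _ _ ENNReal.ofReal_ne_top, ENNReal.ofReal_mul hK]
    gcongr
  have htoR : ∀ K : ℝ, 0 ≤ K → (ENNReal.ofReal (K * ℓ)).toReal = K * ℓ := fun K hK =>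
    ENNReal.toReal_ofReal (by positivity)
  have acx := hc.absolutelyContinuous _
    (contMDiff_of_contDiff (φ := fun e => e.1.1) (by fun_prop))
  have acy := hc.absolutelyContinuous _
    (contMDiff_of_contDiff (φ := fun e => e.1.2.1) (by fun_prop))
  have acx' := hc.absolutelyContinuous _
    (contMDiff_of_contDiff (φ := fun e => e.1.2.2.1) (by fun_prop))
  have acy' := hc.absolutelyContinuous _
    (contMDiff_of_contDiff (φ := fun e => e.1.2.2.2) (by fun_prop))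
  have acz := hc.absolutelyContinuous _
    (contMDiff_of_contDiff (φ := fun e => e.2.1 - (c 0).x * e.1.2.1) (by fun_prop))
  have acz' := hc.absolutelyContinuous _
    (contMDiff_of_contDiff (φ := fun e => e.2.2 - (c 0).x * e.1.2.2.2 - (c 0).x' * e.1.2.1)
      (by fun_prop))
  have hx : ∀ s ∈ Icc (0 : ℝ) 1, |(c s).x - (c 0).x| ≤ C * ℓ := by
    intro s hs
    rw [← htoR C hC0]
    refine coord_est (v := fun t => ca (u t)) (w := fun t => C * ν (u t)) acx ?_ ?_ (hmul C hC0)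
      ENNReal.ofReal_ne_top hs
    · filter_upwards [hc.velocity] with t ht hmem
      exact (hasDerivAt_coords (ht hmem)).1
    · exact Filter.Eventually.of_forall fun t _ => b1 _
  have hx' : ∀ s ∈ Icc (0 : ℝ) 1, |(c s).x' - (c 0).x'| ≤ C * ℓ := by
    intro s hs
    rw [← htoR C hC0]
    refine coord_est (v := fun t => ca' (u t)) (w := fun t => C * ν (u t)) acx' ?_ ?_ (hmul C hC0)
      ENNReal.ofReal_ne_top hs
    · filter_upwards [hc.velocity] with t ht hmem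
      exact (hasDerivAt_coords (ht hmem)).2.2.1
    · exact Filter.Eventually.of_forall fun t _ => b3 _
  have h1 : (1 : ℝ) ∈ Icc (0 : ℝ) 1 := ⟨zero_le_one, le_rfl⟩
  have hCl : 0 ≤ C * ℓ := by positivity
  refine ⟨hx 1 h1, ?_, hx' 1 h1, ?_, ?_, ?_⟩
  · rw [← htoR C hC0]
    refine coord_est (v := fun t => cb (u t)) (w := fun t => C * ν (u t)) acy ?_ ?_ (hmul C hC0)
      ENNReal.ofReal_ne_top h1
    · filter_upwards [hc.velocity] with t ht hmem
      exact (hasDerivAt_coords (ht hmem)).2.1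
    · exact Filter.Eventually.of_forall fun t _ => b2 _
  · rw [← htoR C hC0]
    refine coord_est (v := fun t => cb' (u t)) (w := fun t => C * ν (u t)) acy' ?_ ?_ (hmul C hC0)
      ENNReal.ofReal_ne_top h1
    · filter_upwards [hc.velocity] with t ht hmem
      exact (hasDerivAt_coords (ht hmem)).2.2.2.1
    · exact Filter.Eventually.of_forall fun t _ => b4 _
  · have hK : 0 ≤ (C * ℓ) * C := by positivity
    have e : (C * ℓ) * (C * ℓ) = ((C * ℓ) * C) * ℓ := by ring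
    rw [e, ← htoR _ hK]
    refine coord_est (v := fun t => ((c t).x - (c 0).x) * cb (u t))
      (w := fun t => ((C * ℓ) * C) * ν (u t)) acz ?_ ?_ (hmul _ hK) ENNReal.ofReal_ne_top h1
    · filter_upwards [hc.velocity] with t ht hmem
      have h := hasDerivAt_coords (ht hmem)
      refine HasDerivAt.congr_deriv (h.2.2.2.2.1.sub (h.2.1.const_mul (c 0).x)) ?_
      ring
    · refine Filter.Eventually.of_forall fun t ht => ?_
      rw [abs_mul, mul_assoc]
      exact mul_le_mul (hx t (Ioo_subset_Icc_self ht)) (b2 _) (abs_nonneg _) hCl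
  · have hK : 0 ≤ 2 * ((C * ℓ) * C) := by positivity
    have e : 2 * ((C * ℓ) * (C * ℓ)) = (2 * ((C * ℓ) * C)) * ℓ := by ring
    rw [e, ← htoR _ hK]
    refine coord_est (v := fun t => ((c t).x - (c 0).x) * cb' (u t) +
        ((c t).x' - (c 0).x') * cb (u t))
      (w := fun t => (2 * ((C * ℓ) * C)) * ν (u t)) acz' ?_ ?_ (hmul _ hK)
      ENNReal.ofReal_ne_top h1
    · filter_upwards [hc.velocity] with t ht hmem
      have h := hasDerivAt_coords (ht hmem)
      refine HasDerivAt.congr_deriv ((h.2.2.2.2.2.sub (h.2.2.2.1.const_mul (c 0).x)).sub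
        (h.2.1.const_mul (c 0).x')) ?_
      ring
    · refine Filter.Eventually.of_forall fun t ht => ?_
      have t1 : |((c t).x - (c 0).x) * cb' (u t)| ≤ (C * ℓ) * (C * ν (u t)) := by
        rw [abs_mul]
        exact mul_le_mul (hx t (Ioo_subset_Icc_self ht)) (b4 _) (abs_nonneg _) hCl
      have t2 : |((c t).x' - (c 0).x') * cb (u t)| ≤ (C * ℓ) * (C * ν (u t)) := by
        rw [abs_mul]
        exact mul_le_mul (hx' t (Ioo_subset_Icc_self ht)) (b2 _) (abs_nonneg _) hCl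
      refine (abs_add_le _ _).trans ?_
      linarith

/-- The Carnot distance between two points vanishes only if they are equal. -/
lemma carnotEDist_eq_zero_iff (ν : Seminorm ℝ layer1) (hν : ∀ v, ν v = 0 → v = 0) (p q : DH) :
    carnotEDist (E := E6) layer1 ν p q = 0 ↔ p = q := by
  constructor
  · intro h0
    obtain ⟨C, hC0, hC⟩ := curve_estimates ν hν
    have key : ∀ ℓ : ℝ, 0 < ℓ → |q.x - p.x| ≤ C * ℓ ∧ |q.y - p.y| ≤ C * ℓ ∧
        |q.x' - p.x'| ≤ C * ℓ ∧ |q.y' - p.y'| ≤ C * ℓ ∧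
        |(q.z - p.x * q.y) - (p.z - p.x * p.y)| ≤ (C * ℓ) * (C * ℓ) ∧
        |(q.z' - p.x * q.y' - p.x' * q.y) - (p.z' - p.x * p.y' - p.x' * p.y)| ≤
          2 * ((C * ℓ) * (C * ℓ)) := by
      intro ℓ hℓ
      have h1 : carnotEDist (E := E6) layer1 ν p q < ENNReal.ofReal ℓ := by
        rw [h0]
        exact ENNReal.ofReal_pos.mpr hℓ
      simp only [carnotEDist, iInf_lt_iff] at h1
      obtain ⟨c, u, hc, hp, hq, hlt⟩ := h1
      have h2 := hC c u hc ℓ hℓ.le hlt.le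
      rw [hp, hq] at h2
      exact h2
    have ex : q.x - p.x = 0 := eq_zero_of_small fun ε h _ => (key ε h).1
    have ey : q.y - p.y = 0 := eq_zero_of_small fun ε h _ => (key ε h).2.1
    have ex' : q.x' - p.x' = 0 := eq_zero_of_small fun ε h _ => (key ε h).2.2.1
    have ey' : q.y' - p.y' = 0 := eq_zero_of_small fun ε h _ => (key ε h).2.2.2.1
    have ez : (q.z - p.x * q.y) - (p.z - p.x * p.y) = 0 := by
      refine eq_zero_of_small (K := C * C) fun ε h h1 => ?_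
      refine (key ε h).2.2.2.2.1.trans ?_
      have : C * ε * (C * ε) = C * C * ε * ε := by ring
      rw [this]
      have h3 : 0 ≤ C * C * ε := by positivity
      nlinarith
    have ez' : (q.z' - p.x * q.y' - p.x' * q.y) - (p.z' - p.x * p.y' - p.x' * p.y) = 0 := by
      refine eq_zero_of_small (K := 2 * (C * C)) fun ε h h1 => ?_
      refine (key ε h).2.2.2.2.2.trans ?_
      have : 2 * (C * ε * (C * ε)) = 2 * (C * C) * ε * ε := by ring
      rw [this]
      have h3 : 0 ≤ 2 * (C * C) * ε := by positivity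
      nlinarith
    have fx : q.x = p.x := sub_eq_zero.mp ex
    have fy : q.y = p.y := sub_eq_zero.mp ey
    have fx' : q.x' = p.x' := sub_eq_zero.mp ex'
    have fy' : q.y' = p.y' := sub_eq_zero.mp ey'
    rw [fy] at ez
    rw [fy, fy'] at ez'
    refine DH.ext fx.symm fy.symm fx'.symm fy'.symm ?_ ?_
    · linarith
    · linarith
  · rintro rfl
    have h := carnotEDist_le (E := E6) ν (isHorizontalCurve_curve p 0 0 0 0 0 0 0)
      (p := p) (q := p) (by ext <;> simp [curve, J]) (by ext <;> simp [curve, J])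
    have h2 : ∀ t, curveVel 0 0 0 0 0 0 0 t = 0 := by
      intro t
      apply Subtype.ext
      refine Prod.ext (Prod.ext ?_ (Prod.ext ?_ (Prod.ext ?_ ?_))) (Prod.ext ?_ ?_)
      · show (0 : ℝ) + 0 * (1 - 2 * t) = 0
        ring
      · show (0 : ℝ) + 0 * (1 - 6 * t + 6 * t ^ 2) = 0
        ring
      · show (0 : ℝ) + 0 * (1 - 2 * t) = 0
        ring
      · rfl
      · rfl
      · rfl
    simpa [h2] using h

/-! ### No Heisenberg factor -/

lemma commutator_mem (g h : DH) : (g * h * g⁻¹ * h⁻¹).x = 0 ∧ (g * h * g⁻¹ * h⁻¹).y = 0 ∧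
    (g * h * g⁻¹ * h⁻¹).x' = 0 ∧ (g * h * g⁻¹ * h⁻¹).y' = 0 := by
  refine ⟨?_, ?_, ?_, ?_⟩ <;> simp

/-- If the `(x, y)` coordinates of `g` do not both vanish, every vertical element is a commutator
of `g`. -/
lemma exists_commutator {g : DH} (hg : g.x ≠ 0 ∨ g.y ≠ 0) (a b : ℝ) :
    ∃ k : DH, g * k * g⁻¹ * k⁻¹ = mk 0 0 0 0 a b := by
  rcases hg with hg | hg
  · refine ⟨mk 0 (a / g.x) 0 ((b - g.x' * (a / g.x)) / g.x) 0 0, ?_⟩
    ext
    · simp
    · simp
    · simp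
    · simp
    · rw [commutator_z]; simp only [mk_x, mk_y, mk_z]; field_simp; ring
    · rw [commutator_z']; simp only [mk_x, mk_y, mk_x', mk_y', mk_z']; field_simp; ring
  · refine ⟨mk (- a / g.y) 0 ((- b - (- a / g.y) * g.y') / g.y) 0 0 0, ?_⟩
    ext
    · simp
    · simp
    · simp
    · simp
    · rw [commutator_z]; simp only [mk_x, mk_y, mk_z]; field_simp; ring
    · rw [commutator_z']; simp only [mk_x, mk_y, mk_x', mk_y', mk_z']; field_simp; ring

/-- The group is not isomorphic, even as an abstract group, to the product of a Heisenberg group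
and any group. -/
lemma not_hasHeisenbergFactor : ¬ HasHeisenbergFactor DH := by
  rintro ⟨n, hn, N', hN', ⟨e⟩⟩
  let i₀ : Fin n := ⟨0, hn⟩
  let A : Heis n := ⟨Pi.single i₀ 1, 0, 0⟩
  let B : Heis n := ⟨0, Pi.single i₀ 1, 0⟩
  -- the two preimages do not commute
  let P : DH := e.symm (A, 1)
  let Q : DH := e.symm (B, 1)
  have hP : e P = (A, 1) := e.apply_symm_apply _
  have hQ : e Q = (B, 1) := e.apply_symm_apply _
  have hPQ : ¬ ((P.x = 0 ∧ P.y = 0) ∧ (Q.x = 0 ∧ Q.y = 0)) := by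
    rintro ⟨⟨h1, h2⟩, h3, h4⟩
    have h5 : P * Q * P⁻¹ * Q⁻¹ = 1 := by
      obtain ⟨c1, c2, c3, c4⟩ := commutator_mem P Q
      refine DH.ext c1 c2 c3 c4 ?_ ?_
      · rw [commutator_z, h1, h2, h3]; simp
      · rw [commutator_z', h1, h2, h3, h4]; simp
    have h6 : e (P * Q * P⁻¹ * Q⁻¹) = 1 := by rw [h5, map_one]
    have h7 : ((A, (1 : N')) * (B, 1) * (A, 1)⁻¹ * (B, 1)⁻¹ : Heis n × N') = 1 := by
      rw [← hP, ← hQ, ← h6]
      simp only [map_mul, map_inv]
    have h8 : (A * B * A⁻¹ * B⁻¹).z = 0 := by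
      have := congrArg (fun w : Heis n × N' => w.1.z) h7
      simpa using this
    rw [Heis.comm_z] at h8
    simp [A, B, Pi.single_apply] at h8
  -- every vertical element of `DH` is sent into the centre of the Heisenberg factor
  have hvert : ∀ a b : ℝ, (e (mk 0 0 0 0 a b)).1.x = 0 ∧ (e (mk 0 0 0 0 a b)).1.y = 0 ∧
      (e (mk 0 0 0 0 a b)).2 = 1 := by
    have main : ∀ (R : DH) (D : Heis n), e R = (D, 1) → (R.x ≠ 0 ∨ R.y ≠ 0) → ∀ a b : ℝ,
        (e (mk 0 0 0 0 a b)).1.x = 0 ∧ (e (mk 0 0 0 0 a b)).1.y = 0 ∧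
        (e (mk 0 0 0 0 a b)).2 = 1 := by
      intro R D hR hR' a b
      obtain ⟨k, hk⟩ := exists_commutator hR' a b
      rw [← hk]
      simp only [map_mul, map_inv, hR]
      refine ⟨?_, ?_, ?_⟩
      · exact Heis.comm_x D (e k).1
      · exact Heis.comm_y D (e k).1
      · simp
    by_cases h : P.x = 0 ∧ P.y = 0
    · have h' : Q.x ≠ 0 ∨ Q.y ≠ 0 := by
        by_contra hcon
        push Not at hcon
        exact hPQ ⟨h, hcon⟩
      exact main Q B hQ h'
    · have h' : P.x ≠ 0 ∨ P.y ≠ 0 := by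
        by_contra hcon
        push Not at hcon
        exact h hcon
      exact main P A hP h'
  -- the element `X'`
  let T : DH := mk 0 0 1 0 0 0
  -- its image has a noncentral Heisenberg component
  have hT1 : T * mk 0 1 0 0 0 0 * T⁻¹ * (mk 0 1 0 0 0 0)⁻¹ = mk 0 0 0 0 0 1 := by
    ext <;> simp [T]
  set w : Heis n × N' := e (mk 0 1 0 0 0 0) with hw
  have hT2 : e T * w * (e T)⁻¹ * w⁻¹ = e (mk 0 0 0 0 0 1) := by
    rw [← hT1, hw]
    simp only [map_mul, map_inv]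
  have hne : ((e T).1 * w.1 * (e T).1⁻¹ * w.1⁻¹).z ≠ 0 := by
    intro h0
    have h1 : ((e T).1 * w.1 * (e T).1⁻¹ * w.1⁻¹) = 1 :=
      Heis.ext (Heis.comm_x _ _) (Heis.comm_y _ _) h0
    have h2 : e (mk 0 0 0 0 0 1) = 1 := by
      rw [← hT2]
      refine Prod.ext h1 ?_
      have h3 := (hvert 0 1).2.2
      rw [← hT2] at h3
      exact h3
    have h4 : mk 0 0 0 0 0 1 = (1 : DH) := e.injective (by rw [h2, map_one])
    have h5 := congrArg DH.z' h4
    simp at h5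
  rw [Heis.comm_z] at hne
  -- solve `[e T, (k, 1)] = e Z`
  set s : ℝ := (∑ i, (e T).1.x i * w.1.y i) - ∑ i, w.1.x i * (e T).1.y i with hs
  let c : ℝ := (e (mk 0 0 0 0 1 0)).1.z
  let k : Heis n := ⟨(c / s) • w.1.x, (c / s) • w.1.y, 0⟩
  have hk : e T * (k, 1) * (e T)⁻¹ * (k, 1)⁻¹ = e (mk 0 0 0 0 1 0) := by
    refine Prod.ext (Heis.ext ?_ ?_ ?_) ?_
    · rw [(hvert 1 0).1]; exact Heis.comm_x _ _
    · rw [(hvert 1 0).2.1]; exact Heis.comm_y _ _
    · have h1 : (e T * (k, 1) * (e T)⁻¹ * (k, 1)⁻¹).1.z =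
          (∑ i, (e T).1.x i * k.y i) - ∑ i, k.x i * (e T).1.y i := Heis.comm_z (e T).1 k
      rw [h1]
      have h2 : (∑ i, (e T).1.x i * k.y i) = (c / s) * ∑ i, (e T).1.x i * w.1.y i := by
        rw [Finset.mul_sum]
        refine Finset.sum_congr rfl fun i _ => ?_
        simp only [k, Pi.smul_apply, smul_eq_mul]
        ring
      have h3 : (∑ i, k.x i * (e T).1.y i) = (c / s) * ∑ i, w.1.x i * (e T).1.y i := by
        rw [Finset.mul_sum]
        refine Finset.sum_congr rfl fun i _ => ?_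
        simp only [k, Pi.smul_apply, smul_eq_mul]
        ring
      rw [h2, h3, ← mul_sub, ← hs]
      exact div_mul_cancel₀ c hne
    · rw [(hvert 1 0).2.2]
      simp
  -- pull back to `DH`
  have hk2 : T * e.symm (k, 1) * T⁻¹ * (e.symm (k, 1))⁻¹ = mk 0 0 0 0 1 0 := by
    apply e.injective
    rw [← hk]
    simp only [map_mul, map_inv, MulEquiv.apply_symm_apply]
  have hk3 := congrArg DH.z hk2
  rw [commutator_z] at hk3
  simp [T] at hk3

/-! ### Conclusion -/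

lemma isBiLipschitz_shearEquiv (ν : Seminorm ℝ layer1) (hν : ∀ v, ν v = 0 → v = 0) :
    IsBiLipschitz (carnotEDist (E := E6) layer1 ν) shearEquiv := by
  obtain ⟨C₁, h₁⟩ := carnotEDist_shear_le ν hν 1
  obtain ⟨C₂, h₂⟩ := carnotEDist_shear_le ν hν (-1)
  refine ⟨max C₁ C₂, fun p q => ⟨?_, ?_⟩⟩
  · refine (h₁ p q).trans ?_
    gcongr
    exact le_max_left _ _
  · have h := h₂ (shear 1 p) (shear 1 q)
    rw [shear_shear, shear_shear] at h
    norm_num [shear_zero] at h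
    refine h.trans ?_
    show (C₂ : ENNReal) * carnotEDist (E := E6) layer1 ν (shear 1 p) (shear 1 q) ≤
      ((max C₁ C₂ : NNReal) : ENNReal) * carnotEDist (E := E6) layer1 ν (shear 1 p) (shear 1 q)
    gcongr
    exact le_max_right _ _

lemma not_permutesLeftCosets :
    ¬ PermutesLeftCosets shearEquiv ((⊤ : Subgroup DH).lowerCentralSeries 1) := by
  intro hperm
  obtain ⟨h, heq⟩ := hperm (mk 1 0 0 0 0 0)
  have key : ∀ a : ℝ, fα 1 a = h.x' := by
    intro a
    have h1 : shearEquiv (mk 1 0 0 0 0 0 * mk 0 0 0 0 a 0) ∈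
        leftCoset h ((⊤ : Subgroup DH).lowerCentralSeries 1) := by
      rw [← heq]
      exact mem_image_of_mem _ ⟨mk 0 0 0 0 a 0, mem_lcs_one a, rfl⟩
    obtain ⟨k, hk, hk2⟩ := h1
    have h2 := lcs_one_le hk
    have h3 := congrArg DH.x' hk2
    have h4 : k.x' = 0 := h2.2.2.1
    rw [mul_x', h4, add_zero] at h3
    rw [← h3]
    show fα 1 a = (0 + 0) + 1 * fα (1 + 0) (0 + a + 1 * 0)
    norm_num
  have h0 := key 0
  have h1 := key Real.pi
  rw [← h1] at h0
  simp only [fα, Real.cos_zero, Real.cos_pi] at h0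
  norm_num at h0

end DH

end Pool.Agent.Results.MP_b4a25c_gt.DualHeisenberg
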